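import Mathlib

/-!
A zero-dimensional Hausdorff weakly Lindelof space of cardinality `ℵ₁` that is not weakly Menger
(in ZFC), and hence the answer to the three questions about weakly Lindelof spaces of cardinality
less than the dominating number: each of them holds if and only if `𝔡 = ℵ₁`.
-/

namespace Pool.Agent.Results.MP_ed8104_gt.IffDEqAlephOne

open Set Filter Topology Cardinal

/-- `𝒰` is an open cover of `X`. -/
def OpenCover {X : Type*} [TopologicalSpace X] (𝒰 : Set (Set X)) : Prop :=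
  (∀ U ∈ 𝒰, IsOpen U) ∧ ⋃₀ 𝒰 = Set.univ

/-- `𝒱` is a selection for the sequence `𝒰`: each `𝒱 n` is a finite subset of `𝒰 n`. -/
def IsSelection {X : Type*} (𝒰 𝒱 : ℕ → Set (Set X)) : Prop :=
  ∀ n, 𝒱 n ⊆ 𝒰 n ∧ (𝒱 n).Finite

/-- weakly Lindelof: every open cover has a countable subfamily with dense union -/
def WeaklyLindelof (X : Type*) [TopologicalSpace X] : Prop :=
  ∀ 𝒰 : Set (Set X), OpenCover 𝒰 → ∃ 𝒱 ⊆ 𝒰, 𝒱.Countable ∧ Dense (⋃₀ 𝒱)

/-- weakly Menger -/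
def WeaklyMenger (X : Type*) [TopologicalSpace X] : Prop :=
  ∀ 𝒰 : ℕ → Set (Set X), (∀ n, OpenCover (𝒰 n)) → ∃ 𝒱, IsSelection 𝒰 𝒱 ∧
    Dense (⋃ n, ⋃₀ 𝒱 n)

/-- weakly Scheepers (in the sense of Sakai) -/
def WeaklyScheepers (X : Type*) [TopologicalSpace X] : Prop :=
  ∀ 𝒰 : ℕ → Set (Set X), (∀ n, OpenCover (𝒰 n)) → ∃ 𝒱, IsSelection 𝒰 𝒱 ∧
    ∀ ℱ : Set (Set X), ℱ.Finite → (∀ U ∈ ℱ, IsOpen U ∧ U.Nonempty) →
      {n | ∀ U ∈ ℱ, (U ∩ ⋃₀ 𝒱 n).Nonempty}.Infinite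

/-- weakly Scheepers in the sense of Kocinac -/
def WeaklyScheepersK (X : Type*) [TopologicalSpace X] : Prop :=
  ∀ 𝒰 : ℕ → Set (Set X), (∀ n, OpenCover (𝒰 n)) → ∃ Y : Set X, Dense Y ∧
    ∃ 𝒱, IsSelection 𝒰 𝒱 ∧
      ∀ F : Set X, F ⊆ Y → F.Finite → {n | F ⊆ ⋃₀ 𝒱 n}.Infinite

/-- `D` is a dominating family: every `g` is eventually bounded by a member of `D`. -/
def Dominating (D : Set (ℕ → ℕ)) : Prop :=
  ∀ g : ℕ → ℕ, ∃ f ∈ D, ∀ᶠ n in atTop, g n ≤ f n

/-- the dominating number -/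
noncomputable def dNumber : Cardinal.{0} :=
  sInf {κ | ∃ D : Set (ℕ → ℕ), Dominating D ∧ #D = κ}

/-! ### The dominating number is uncountable -/

theorem aleph_one_le_dNumber : ℵ₁ ≤ dNumber := by
  unfold dNumber
  refine le_csInf ⟨#(Set.univ : Set (ℕ → ℕ)), Set.univ, fun g => ⟨g, mem_univ _, by simp⟩, rfl⟩ ?_
  rintro κ ⟨D, hD, rfl⟩
  by_contra hlt
  rw [not_le] at hlt
  have hc : D.Countable := by
    rw [← Cardinal.le_aleph0_iff_set_countable]
    have h1 : ℵ₁ = Order.succ ℵ₀ := Cardinal.succ_aleph0.symm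
    rw [h1] at hlt
    exact Order.lt_succ_iff.1 hlt
  have hne : D.Nonempty := by
    obtain ⟨f, hf, -⟩ := hD (fun _ => 0)
    exact ⟨f, hf⟩
  obtain ⟨F, hF⟩ := hc.exists_eq_range hne
  obtain ⟨f, hf, hev⟩ := hD (fun n => (∑ i ∈ Finset.range (n + 1), F i n) + 1)
  rw [hF] at hf
  obtain ⟨k, rfl⟩ := hf
  obtain ⟨N, hN⟩ := eventually_atTop.1 hev
  have h1 := hN (max N k) (le_max_left _ _)
  have h2 : F k (max N k) ≤ ∑ i ∈ Finset.range (max N k + 1), F i (max N k) :=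
    Finset.single_le_sum (f := fun i => F i (max N k)) (fun _ _ => Nat.zero_le _)
      (Finset.mem_range.2 (Nat.lt_succ_of_le (le_max_right _ _)))
  omega

/-! ### The space -/

section Space

variable {Ω : Type}

/-- the column over `ξ` -/
def col (ξ : Ω) : Set (ℕ × Ω) := {p | p.2 = ξ}

variable (Ω) in
/-- The points: subsets of `ℕ × Ω` which are a finite set together with one column. -/
def Sp : Type := {A : Set (ℕ × Ω) // ∃ a : Set (ℕ × Ω), a.Finite ∧ ∃ ξ : Ω, A = a ∪ col ξ}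

/-- all sections are finite -/
def Sm (s : Set (ℕ × Ω)) : Prop := ∀ n, {α | (n, α) ∈ s}.Finite

/-- basic set -/
def basic (a s : Set (ℕ × Ω)) : Set (Sp Ω) := {x | a ⊆ x.1 ∧ Disjoint x.1 s}

theorem Sm.union {s t : Set (ℕ × Ω)} (hs : Sm s) (ht : Sm t) : Sm (s ∪ t) := by
  intro n
  exact ((hs n).union (ht n)).subset (fun α h => h)

theorem sm_empty : Sm (∅ : Set (ℕ × Ω)) := by
  intro n; simp

theorem Sm.countable {s : Set (ℕ × Ω)} (hs : Sm s) : {α | ∃ n, (n, α) ∈ s}.Countable := by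
  have : {α | ∃ n, (n, α) ∈ s} = ⋃ n, {α | (n, α) ∈ s} := by ext; simp
  rw [this]
  exact countable_iUnion (fun n => (hs n).countable)

instance : TopologicalSpace (Sp Ω) where
  IsOpen W := ∀ x ∈ W, ∃ a s : Set (ℕ × Ω), a.Finite ∧ Sm s ∧ x ∈ basic a s ∧ basic a s ⊆ W
  isOpen_univ := fun x _ => ⟨∅, ∅, finite_empty, sm_empty, ⟨empty_subset _, by simp⟩,
    subset_univ _⟩
  isOpen_inter := by
    rintro V W hV hW x ⟨hx1, hx2⟩
    obtain ⟨a, s, ha, hs, h1, h2⟩ := hV x hx1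
    obtain ⟨b, t, hb, ht, h3, h4⟩ := hW x hx2
    refine ⟨a ∪ b, s ∪ t, ha.union hb, hs.union ht, ⟨union_subset h1.1 h3.1, ?_⟩, ?_⟩
    · rw [disjoint_union_right]; exact ⟨h1.2, h3.2⟩
    · rintro y ⟨hy1, hy2⟩
      rw [disjoint_union_right] at hy2
      exact ⟨h2 ⟨subset_union_left.trans hy1, hy2.1⟩, h4 ⟨subset_union_right.trans hy1, hy2.2⟩⟩
  isOpen_sUnion := by
    rintro 𝒮 h x ⟨W, hW, hx⟩
    obtain ⟨a, s, ha, hs, h1, h2⟩ := h W hW x hx
    exact ⟨a, s, ha, hs, h1, h2.trans (subset_sUnion_of_mem hW)⟩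

theorem isOpen_iff (W : Set (Sp Ω)) : IsOpen W ↔
    ∀ x ∈ W, ∃ a s : Set (ℕ × Ω), a.Finite ∧ Sm s ∧ x ∈ basic a s ∧ basic a s ⊆ W := Iff.rfl

theorem isOpen_basic {a s : Set (ℕ × Ω)} (ha : a.Finite) (hs : Sm s) : IsOpen (basic a s) :=
  (isOpen_iff _).2 (fun _ hx => ⟨a, s, ha, hs, hx, subset_rfl⟩)

theorem isOpen_mem (p : ℕ × Ω) : IsOpen {x : Sp Ω | p ∈ x.1} := by
  have : {x : Sp Ω | p ∈ x.1} = basic {p} ∅ := by
    ext x; simp [basic]
  rw [this]
  exact isOpen_basic (finite_singleton _) sm_empty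

theorem isOpen_notMem (p : ℕ × Ω) : IsOpen {x : Sp Ω | p ∉ x.1} := by
  have : {x : Sp Ω | p ∉ x.1} = basic ∅ {p} := by
    ext x; simp [basic]
  rw [this]
  refine isOpen_basic finite_empty (fun n => ?_)
  exact (finite_singleton p.2).subset (by rintro α h; simp at h; simp [← h])

theorem isClopen_basic {a s : Set (ℕ × Ω)} (ha : a.Finite) (hs : Sm s) : IsClopen (basic a s) := by
  refine ⟨?_, isOpen_basic ha hs⟩
  rw [← isOpen_compl_iff]
  have : (basic a s)ᶜ = (⋃ p ∈ a, {x : Sp Ω | p ∉ x.1}) ∪ ⋃ p ∈ s, {x : Sp Ω | p ∈ x.1} := by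
    ext x
    simp only [basic, mem_compl_iff, mem_setOf_eq, not_and_or, not_subset, mem_union, mem_iUnion,
      exists_prop, Set.not_disjoint_iff]
    constructor
    · rintro (⟨p, h1, h2⟩ | ⟨p, h1, h2⟩)
      · exact Or.inl ⟨p, h1, h2⟩
      · exact Or.inr ⟨p, h2, h1⟩
    · rintro (⟨p, h1, h2⟩ | ⟨p, h1, h2⟩)
      · exact Or.inl ⟨p, h1, h2⟩
      · exact Or.inr ⟨p, h2, h1⟩
  rw [this]
  exact (isOpen_biUnion (fun p _ => isOpen_notMem p)).union (isOpen_biUnion (fun p _ => isOpen_mem p))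

/-- the point given by a finite set and a column -/
def pt (a : Finset (ℕ × Ω)) (ξ : Ω) : Sp Ω := ⟨↑a ∪ col ξ, ↑a, a.finite_toSet, ξ, rfl⟩

theorem pt_val (a : Finset (ℕ × Ω)) (ξ : Ω) : (pt a ξ).1 = ↑a ∪ col ξ := rfl

theorem exists_pt (x : Sp Ω) : ∃ a ξ, x = pt a ξ := by
  obtain ⟨A, a, ha, ξ, rfl⟩ := x
  refine ⟨ha.toFinset, ξ, ?_⟩
  apply Subtype.ext
  simp [pt_val]

instance : T2Space (Sp Ω) := by
  refine ⟨fun x y hxy => ?_⟩
  have hne : x.1 ≠ y.1 := fun h => hxy (Subtype.ext h)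
  by_cases hsub : x.1 ⊆ y.1
  · have : ¬ y.1 ⊆ x.1 := fun h => hne (hsub.antisymm h)
    obtain ⟨p, hp1, hp2⟩ := not_subset.1 this
    exact ⟨_, _, isOpen_notMem p, isOpen_mem p, hp2, hp1,
      disjoint_left.2 (fun z hz1 hz2 => hz1 hz2)⟩
  · obtain ⟨p, hp1, hp2⟩ := not_subset.1 hsub
    exact ⟨_, _, isOpen_mem p, isOpen_notMem p, hp1, hp2,
      disjoint_left.2 (fun z hz1 hz2 => hz2 hz1)⟩

theorem clopen_basis : TopologicalSpace.IsTopologicalBasis {s : Set (Sp Ω) | IsClopen s} := by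
  refine TopologicalSpace.isTopologicalBasis_of_isOpen_of_nhds (fun u hu => hu.2) ?_
  intro x W hx hW
  obtain ⟨a, s, ha, hs, h1, h2⟩ := (isOpen_iff W).1 hW x hx
  exact ⟨basic a s, isClopen_basic ha hs, h1, h2⟩

/-- a common extension -/
theorem exists_point (hΩ : ¬ (Set.univ : Set Ω).Countable) {b t : Set (ℕ × Ω)} (hb : b.Finite)
    (ht : Sm t) (hd : Disjoint b t) : ∃ y : Sp Ω, b ⊆ y.1 ∧ Disjoint y.1 t := by
  have : ∃ ζ, ζ ∉ {α | ∃ n, (n, α) ∈ t} := by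
    by_contra hcon
    push Not at hcon
    exact hΩ (ht.countable.mono (fun α _ => hcon α))
  obtain ⟨ζ, hζ⟩ := this
  refine ⟨⟨b ∪ col ζ, b, hb, ζ, rfl⟩, subset_union_left, ?_⟩
  show Disjoint (b ∪ col ζ) t
  rw [disjoint_union_left]
  refine ⟨hd, disjoint_left.2 ?_⟩
  rintro ⟨n, α⟩ h1 h2
  have : α = ζ := h1
  subst this
  exact hζ ⟨n, h2⟩

theorem not_weaklyMenger (hΩ : ¬ (Set.univ : Set Ω).Countable) : ¬ WeaklyMenger (Sp Ω) := by
  intro hM
  set 𝒰 : ℕ → Set (Set (Sp Ω)) := fun n => Set.range (fun α : Ω => {x : Sp Ω | (n, α) ∈ x.1})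
    with h𝒰
  have hcov : ∀ n, OpenCover (𝒰 n) := by
    intro n
    refine ⟨?_, ?_⟩
    · rintro _ ⟨α, rfl⟩
      exact isOpen_mem _
    · rw [eq_univ_iff_forall]
      intro x
      obtain ⟨a, ξ, rfl⟩ := exists_pt x
      exact ⟨_, ⟨ξ, rfl⟩, Or.inr rfl⟩
  obtain ⟨𝒱, hsel, hdense⟩ := hM 𝒰 hcov
  set s : Set (ℕ × Ω) := {p | {x : Sp Ω | p ∈ x.1} ∈ 𝒱 p.1} with hs
  have hinj : ∀ n : ℕ, Function.Injective (fun α : Ω => {x : Sp Ω | (n, α) ∈ x.1}) := by
    intro n α β hαβ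
    by_contra hne
    have h1 : pt ∅ α ∈ {x : Sp Ω | (n, α) ∈ x.1} := by
      show (n, α) ∈ (pt ∅ α).1
      rw [pt_val]; exact Or.inr rfl
    simp only at hαβ
    rw [hαβ] at h1
    have h2 : (n, β) ∈ (pt ∅ α).1 := h1
    rw [pt_val] at h2
    rcases h2 with h2 | h2
    · simp at h2
    · exact hne (show β = α from h2).symm
  have hSm : Sm s := by
    intro n
    exact (hsel n).2.preimage (f := fun α : Ω => {x : Sp Ω | (n, α) ∈ x.1}) ((hinj n).injOn)
  obtain ⟨y, -, hy⟩ := exists_point hΩ finite_empty hSm (empty_disjoint s)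
  obtain ⟨z, hz1, hz2⟩ := hdense.inter_open_nonempty _ (isOpen_basic finite_empty hSm)
    ⟨y, empty_subset _, hy⟩
  obtain ⟨n, hn⟩ := mem_iUnion.1 hz2
  obtain ⟨U, hU, hzU⟩ := hn
  obtain ⟨α, rfl⟩ := (hsel n).1 hU
  exact disjoint_left.1 hz1.2 (show (n, α) ∈ z.1 from hzU) hU

theorem weaklyLindelof (hΩ : ¬ (Set.univ : Set Ω).Countable) : WeaklyLindelof (Sp Ω) := by
  classical
  intro 𝒰 h𝒰
  have h0 : ∀ x : Sp Ω, ∃ U ∈ 𝒰, ∃ a s : Set (ℕ × Ω), a.Finite ∧ Sm s ∧ x ∈ basic a s ∧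
      basic a s ⊆ U := by
    intro x
    have hx : x ∈ ⋃₀ 𝒰 := by rw [h𝒰.2]; trivial
    obtain ⟨U, hU, hxU⟩ := hx
    obtain ⟨a, s, h1, h2, h3, h4⟩ := (isOpen_iff U).1 (h𝒰.1 U hU) x hxU
    exact ⟨U, hU, a, s, h1, h2, h3, h4⟩
  choose U hU A S hA hS hxA hAU using h0
  -- heights
  have hN0 : ∀ x : Sp Ω, ∃ N : ℕ, ∀ p ∈ A x, p.1 < N := by
    intro x
    obtain ⟨N, hN⟩ := ((hA x).image Prod.fst).bddAbove
    exact ⟨N + 1, fun p hp => Nat.lt_succ_of_le (hN (mem_image_of_mem _ hp))⟩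
  choose N hN using hN0
  -- for each finite set choose infinitely many columns with the same height
  have he0 : ∀ a : Finset (ℕ × Ω), ∃ e : ℕ → Ω, Function.Injective e ∧
      ∃ m, ∀ j, N (pt a (e j)) = m := by
    intro a
    have : ∃ m, ¬ {ξ | N (pt a ξ) = m}.Countable := by
      by_contra hcon
      push Not at hcon
      apply hΩ
      refine (countable_iUnion hcon).mono ?_
      intro ξ _
      exact mem_iUnion.2 ⟨N (pt a ξ), rfl⟩
    obtain ⟨m, hm⟩ := this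
    have hinf : {ξ | N (pt a ξ) = m}.Infinite := fun hf => hm hf.countable
    refine ⟨fun j => (hinf.natEmbedding _ j : Ω), ?_, m, fun j => (hinf.natEmbedding _ j).2⟩
    intro i j hij
    exact (hinf.natEmbedding _).injective (Subtype.ext hij)
  choose e he m hm using he0
  -- the closed countable set
  let f : Finset (ℕ × Ω) → Set Ω := fun a => ⋃ j, {α | ∃ n, (n, α) ∈ S (pt a (e a j))}
  have hf : ∀ a, (f a).Countable := fun a => countable_iUnion (fun j => (hS _).countable)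
  let M : ℕ → Set Ω := fun k => Nat.rec ∅ (fun _ M => M ∪ ⋃ a ∈ {a : Finset (ℕ × Ω) |
    (a : Set (ℕ × Ω)) ⊆ {p | p.2 ∈ M}}, f a) k
  have hMs : ∀ k, M (k + 1) = M k ∪ ⋃ a ∈ {a : Finset (ℕ × Ω) |
    (a : Set (ℕ × Ω)) ⊆ {p | p.2 ∈ M k}}, f a := fun k => rfl
  have hfin : ∀ C : Set Ω, C.Countable → {a : Finset (ℕ × Ω) |
      (a : Set (ℕ × Ω)) ⊆ {p | p.2 ∈ C}}.Countable := by
    intro C hC
    have h1 : {p : ℕ × Ω | p.2 ∈ C}.Countable := by
      have : {p : ℕ × Ω | p.2 ∈ C} = (Set.univ : Set ℕ) ×ˢ C := by ext; simp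
      rw [this]
      exact (countable_univ).prod hC
    have h2 := Set.countable_setOf_finite_subset h1
    refine (h2.preimage_of_injOn (f := fun a : Finset (ℕ × Ω) => (a : Set (ℕ × Ω)))
      (fun a _ b _ h => Finset.coe_injective h)).mono ?_
    intro a ha
    exact ⟨a.finite_toSet, ha⟩
  have hMc : ∀ k, (M k).Countable := by
    intro k
    induction k with
    | zero => exact countable_empty
    | succ k ih =>
      rw [hMs]
      exact ih.union ((hfin _ ih).biUnion (fun a _ => hf a))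
  have hMmono : Monotone M := monotone_nat_of_le_succ (fun k => by rw [hMs]; exact subset_union_left)
  set Mω : Set Ω := ⋃ k, M k with hMω
  have hMωc : Mω.Countable := countable_iUnion hMc
  have hclosed : ∀ a : Finset (ℕ × Ω), (a : Set (ℕ × Ω)) ⊆ {p | p.2 ∈ Mω} → f a ⊆ Mω := by
    intro a ha
    have : ∃ k, (a : Set (ℕ × Ω)) ⊆ {p | p.2 ∈ M k} := by
      induction a using Finset.induction_on with
      | empty => exact ⟨0, by simp⟩
      | insert p a _ ih =>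
        rw [Finset.coe_insert] at ha
        obtain ⟨k, hk⟩ := ih (fun q hq => ha (mem_insert_of_mem _ hq))
        obtain ⟨l, hl⟩ := mem_iUnion.1 (ha (mem_insert p _))
        refine ⟨max k l, ?_⟩
        rw [Finset.coe_insert]
        rintro q (rfl | hq)
        · exact hMmono (le_max_right _ _) hl
        · exact hMmono (le_max_left _ _) (hk hq)
    obtain ⟨k, hk⟩ := this
    refine subset_trans ?_ (subset_iUnion M (k + 1))
    rw [hMs]
    exact subset_union_of_subset_right (subset_biUnion_of_mem (u := f) hk) _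
  refine ⟨⋃ a ∈ {a : Finset (ℕ × Ω) | (a : Set (ℕ × Ω)) ⊆ {p | p.2 ∈ Mω}},
    Set.range (fun j => U (pt a (e a j))), ?_, (hfin _ hMωc).biUnion (fun a _ => countable_range _),
    ?_⟩
  · refine iUnion₂_subset (fun a _ => ?_)
    rintro _ ⟨j, rfl⟩
    exact hU _
  rw [dense_iff_inter_open]
  intro W hW ⟨w, hw⟩
  obtain ⟨a0, s0, ha0, hs0, hw0, hW0⟩ := (isOpen_iff W).1 hW w hw
  set a : Finset (ℕ × Ω) := ha0.toFinset.filter (fun p => p.2 ∈ Mω) with ha
  have haM : (a : Set (ℕ × Ω)) ⊆ {p | p.2 ∈ Mω} := by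
    intro p hp
    rw [ha, Finset.coe_filter] at hp
    exact hp.2
  have haa0 : (a : Set (ℕ × Ω)) ⊆ a0 := by
    intro p hp
    rw [ha, Finset.coe_filter] at hp
    exact ha0.mem_toFinset.1 hp.1
  have hbad : (⋃ n ∈ Set.Iio (m a), {α | (n, α) ∈ s0}).Finite :=
    (Set.finite_Iio _).biUnion (fun n _ => hs0 n)
  have : ∃ j, e a j ∉ ⋃ n ∈ Set.Iio (m a), {α | (n, α) ∈ s0} := by
    by_contra hcon
    push Not at hcon
    exact Set.infinite_range_of_injective (he a) (hbad.subset (by rintro _ ⟨j, rfl⟩; exact hcon j))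
  obtain ⟨j, hj⟩ := this
  set x := pt a (e a j) with hx
  have hd : Disjoint (a0 ∪ A x) (s0 ∪ S x) := by
    rw [disjoint_left]
    rintro p (hp | hp) (hq | hq)
    · exact disjoint_left.1 hw0.2 (hw0.1 hp) hq
    · have hpM : p.2 ∈ Mω := by
        apply hclosed a haM
        exact mem_iUnion.2 ⟨j, p.1, hq⟩
      have hpa : p ∈ (a : Set (ℕ × Ω)) := by
        rw [ha, Finset.coe_filter]
        exact ⟨ha0.mem_toFinset.2 hp, hpM⟩
      exact disjoint_left.1 (hxA x).2 (Or.inl hpa) hq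
    · rcases (hxA x).1 hp with h | h
      · exact disjoint_left.1 hw0.2 (hw0.1 (haa0 h)) hq
      · have h2 : p.2 = e a j := h
        apply hj
        refine mem_iUnion₂.2 ⟨p.1, ?_, ?_⟩
        · rw [← hm a j]
          exact hN _ p hp
        · show (p.1, e a j) ∈ s0
          rw [← h2]; exact hq
    · exact disjoint_left.1 (hxA x).2 ((hxA x).1 hp) hq
  obtain ⟨y, hy1, hy2⟩ := exists_point hΩ (ha0.union (hA x)) (hs0.union (hS x)) hd
  rw [disjoint_union_right] at hy2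
  refine ⟨y, hW0 ⟨subset_union_left.trans hy1, hy2.1⟩, ?_⟩
  refine ⟨U x, ?_, hAU x ⟨subset_union_right.trans hy1, hy2.2⟩⟩
  exact mem_iUnion₂.2 ⟨a, haM, j, rfl⟩

theorem mk_Sp (hΩ : #Ω = ℵ₁) : #(Sp Ω) = ℵ₁ := by
  have hinf : Infinite Ω := by
    rw [Cardinal.infinite_iff, hΩ]; exact Cardinal.aleph0_le_aleph 1
  apply le_antisymm
  · have hsurj : Function.Surjective (fun q : Finset (ℕ × Ω) × Ω => pt q.1 q.2) := by
      intro x
      obtain ⟨a, ξ, h⟩ := exists_pt x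
      exact ⟨(a, ξ), h.symm⟩
    refine (Cardinal.mk_le_of_surjective hsurj).trans ?_
    rw [Cardinal.mk_prod, Cardinal.mk_finset_of_infinite, Cardinal.mk_prod]
    simp only [Cardinal.lift_id, Cardinal.mk_nat, hΩ]
    simp
  · rw [← hΩ]
    refine Cardinal.mk_le_of_injective (f := fun ξ : Ω => pt ∅ ξ) ?_
    intro ξ η h
    have h1 : (pt ∅ ξ : Sp Ω).1 = (pt ∅ η : Sp Ω).1 := congrArg Subtype.val h
    have h2 : (0, ξ) ∈ (pt ∅ ξ : Sp Ω).1 := Or.inr rfl
    rw [h1] at h2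
    rcases h2 with h2 | h2
    · simp at h2
    · exact h2

end Space

/-! ### Countable spaces -/

theorem weaklyScheepersK_of_countable (X : Type*) [TopologicalSpace X] [Countable X] :
    WeaklyScheepersK X := by
  intro 𝒰 h𝒰
  have h0 : ∀ n, ∀ x : X, ∃ U ∈ 𝒰 n, x ∈ U := by
    intro n x
    have hx : x ∈ ⋃₀ 𝒰 n := by rw [(h𝒰 n).2]; trivial
    obtain ⟨U, hU, hxU⟩ := hx
    exact ⟨U, hU, hxU⟩
  choose U hU hxU using h0
  obtain ⟨enc, henc⟩ := exists_injective_nat X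
  refine ⟨Set.univ, dense_univ, fun n => U n '' {x | enc x ≤ n}, fun n => ⟨?_, ?_⟩, ?_⟩
  · rintro _ ⟨x, -, rfl⟩
    exact hU n x
  · exact ((Set.finite_Iic n).preimage henc.injOn).image _
  · intro F _ hF
    obtain ⟨N, hN⟩ := (hF.image enc).bddAbove
    refine Set.infinite_of_forall_exists_gt (fun k => ⟨max N (k + 1), ?_,
      lt_of_lt_of_le (Nat.lt_succ_self k) (le_max_right _ _)⟩)
    intro x hx
    exact ⟨U (max N (k + 1)) x, ⟨x, (hN (mem_image_of_mem _ hx)).trans (le_max_left _ _), rfl⟩,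
      hxU _ _⟩

theorem wS_of_wSK (X : Type*) [TopologicalSpace X] (h : WeaklyScheepersK X) :
    WeaklyScheepers X := by
  intro 𝒰 h𝒰
  obtain ⟨Y, hY, 𝒱, hsel, hinf⟩ := h 𝒰 h𝒰
  refine ⟨𝒱, hsel, fun ℱ hℱ hop => ?_⟩
  have h0 : ∀ U : ℱ, ∃ y, y ∈ (U : Set X) ∩ Y := fun U =>
    hY.inter_open_nonempty _ (hop U U.2).1 (hop U U.2).2
  choose y hy using h0
  have := hℱ.to_subtype
  refine (hinf (Set.range y) (by rintro _ ⟨U, rfl⟩; exact (hy U).2) (Set.finite_range y)).mono ?_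
  intro n hn U hU
  exact ⟨y ⟨U, hU⟩, (hy ⟨U, hU⟩).1, hn ⟨_, rfl⟩⟩

theorem wM_of_wS (X : Type*) [TopologicalSpace X] (h : WeaklyScheepers X) :
    WeaklyMenger X := by
  intro 𝒰 h𝒰
  obtain ⟨𝒱, hsel, hinf⟩ := h 𝒰 h𝒰
  refine ⟨𝒱, hsel, ?_⟩
  rw [dense_iff_inter_open]
  intro U hU hne
  obtain ⟨n, hn⟩ := (hinf {U} (finite_singleton U) (by rintro V rfl; exact ⟨hU, hne⟩)).nonempty
  obtain ⟨x, hx1, hx2⟩ := hn U rfl
  exact ⟨x, hx1, mem_iUnion.2 ⟨n, hx2⟩⟩

/-- In ZFC there is a zero-dimensional Hausdorff weakly Lindelof space of cardinality `ℵ₁` which is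
not weakly Menger. -/
theorem exists_example : ∃ (X : Type) (_ : TopologicalSpace X), T2Space X ∧
    TopologicalSpace.IsTopologicalBasis {s : Set X | IsClopen s} ∧ #X = ℵ₁ ∧
    WeaklyLindelof X ∧ ¬ WeaklyMenger X := by
  have hΩ : #(Quotient.out (ℵ₁ : Cardinal.{0})) = ℵ₁ := Cardinal.mk_out _
  have hunc : ¬ (Set.univ : Set (Quotient.out (ℵ₁ : Cardinal.{0}))).Countable := by
    rw [← Cardinal.le_aleph0_iff_set_countable, Cardinal.mk_univ, hΩ, not_le]
    exact Cardinal.aleph0_lt_aleph_one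
  exact ⟨Sp (Quotient.out (ℵ₁ : Cardinal.{0})), inferInstance, inferInstance, clopen_basis, mk_Sp hΩ,
    weaklyLindelof hunc, not_weaklyMenger hunc⟩

/-- **Main theorem.** There is, in ZFC, a zero-dimensional Hausdorff weakly Lindelof space of
cardinality `ℵ₁` that is not weakly Menger; consequently each of the statements (a), (b), (c) of
the problem holds if and only if `𝔡 = ℵ₁`. -/
theorem result :
    (∃ (X : Type) (_ : TopologicalSpace X), T2Space X ∧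
      TopologicalSpace.IsTopologicalBasis {s : Set X | IsClopen s} ∧ #X = ℵ₁ ∧
      WeaklyLindelof X ∧ ¬ WeaklyMenger X) ∧
    ((∀ (X : Type) [TopologicalSpace X], WeaklyLindelof X → #X < dNumber → WeaklyScheepersK X) ↔
      dNumber = ℵ₁) ∧
    ((∀ (X : Type) [TopologicalSpace X], WeaklyLindelof X → #X < dNumber → WeaklyScheepers X) ↔
      dNumber = ℵ₁) ∧
    ((∀ (X : Type) [TopologicalSpace X], WeaklyLindelof X → #X < dNumber → WeaklyMenger X) ↔
      dNumber = ℵ₁) := by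
  have hcount : dNumber = ℵ₁ → ∀ (X : Type) [TopologicalSpace X], #X < dNumber →
      WeaklyScheepersK X := by
    intro hd X _ hX
    have : Countable X := by
      rw [← Cardinal.mk_le_aleph0_iff]
      rw [hd, ← Cardinal.succ_aleph0] at hX
      exact Order.lt_succ_iff.1 hX
    exact weaklyScheepersK_of_countable X
  have hex : (∀ (X : Type) [TopologicalSpace X], WeaklyLindelof X → #X < dNumber →
      WeaklyMenger X) → dNumber = ℵ₁ := by
    intro h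
    obtain ⟨X, tX, -, -, hc, hL, hM⟩ := exists_example
    by_contra hne
    exact hM (h X hL (by rw [hc]; exact lt_of_le_of_ne aleph_one_le_dNumber (Ne.symm hne)))
  refine ⟨exists_example, ⟨fun h => hex ?_, fun h => ?_⟩, ⟨fun h => hex ?_, fun h => ?_⟩,
    ⟨hex, fun h => ?_⟩⟩
  · intro X _ hL hX
    exact wM_of_wS X (wS_of_wSK X (h X hL hX))
  · intro X _ _ hX
    exact hcount h X hX
  · intro X _ hL hX
    exact wM_of_wS X (h X hL hX)
  · intro X _ _ hX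
    exact wS_of_wSK X (hcount h X hX)
  · intro X _ _ hX
    exact wM_of_wS X (wS_of_wSK X (hcount h X hX))

end Pool.Agent.Results.MP_ed8104_gt.IffDEqAlephOne
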